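import Pool.Agent.Helper28.TK.StW

/-!
# Project TK, all weights, module UIp: symbols for the extended group invariant under the scaling by `p`

Port (level `3 p^n`) of the module `Pool/Agent/Helper94/THW/M_UIp.lean`.  The group of all `γ` with `χ∘γ ≈ χ` contains `(1 1; 0 1)`, `(1 0; 3 1)` and
`W = (0 -1; 3 0)`; twice the constant of `W` is zero, so `2 χ` is invariant (without constants) under `(1 1; 0 1)` and `W`, hence constant by the Euclidean
algorithm for `(1 1; 0 1)` and `(1 0; 3 1)`.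
-/

set_option autoImplicit false

open Pool.Agent.Helper14.CV

namespace Pool.Agent.Helper57.TKW

open Pool.Agent.Helper28.TH (OkH ALPlus)

open Pool.Agent.Helper28.TK Pool.Agent.Helper28.WK Pool.Agent.Helper28.TK
open Pool.Agent.Helper4.TL (OkE)

private theorem inv_inv {R : Type} [AddCommGroup R] {χ : ℤ → ℤ → R} {a b c d : ℤ}
    (hd : a * d - b * c = 1) (h : EqC (act a b c d χ) χ) : EqC (act d (-b) (-c) a χ) χ := by
  have hd' : d * a - -b * -c = 1 := by linarith
  have h1 : EqC (act d (-b) (-c) a (act a b c d χ)) (act d (-b) (-c) a χ) :=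
    h.act (by rw [hd']; exact one_ne_zero)
  have h2 : act d (-b) (-c) a (act a b c d χ) = χ := by
    rw [act_act]
    have e1 : a * d + b * -c = 1 := by linarith
    have e2 : a * -b + b * a = 0 := by ring
    have e3 : c * d + d * -c = 0 := by ring
    have e4 : c * -b + d * a = 1 := by linarith
    rw [e1, e2, e3, e4, act_one]
  rw [h2] at h1
  exact h1.symm

private theorem up {R : Type} [AddCommGroup R] {χ : ℤ → ℤ → R}
    (hT : EqC (act 1 1 0 1 χ) χ) (k : ℤ) : EqC (act 1 k 0 1 χ) χ := by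
  have hT' : EqC (act 1 (-1) 0 1 χ) χ := by
    have := inv_inv (by norm_num) hT
    simpa using this
  induction k using Int.induction_on with
  | zero => rw [act_one]; exact EqC.refl _
  | succ i ih =>
    have e : act 1 ((i : ℤ) + 1) 0 1 χ = act 1 1 0 1 (act 1 (i : ℤ) 0 1 χ) := by
      rw [act_act]
      congr 1 <;> ring
    rw [e]
    exact (ih.act (by norm_num)).trans hT
  | pred i ih =>
    have e : act 1 (-(i : ℤ) - 1) 0 1 χ = act 1 (-1) 0 1 (act 1 (-(i : ℤ)) 0 1 χ) := by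
      rw [act_act]
      congr 1 <;> ring
    rw [e]
    exact (ih.act (by norm_num)).trans hT'

private theorem lo {R : Type} [AddCommGroup R] {χ : ℤ → ℤ → R}
    (hL : EqC (act 1 0 3 1 χ) χ) (k : ℤ) : EqC (act 1 0 (3 * k) 1 χ) χ := by
  have hL' : EqC (act 1 0 (-3) 1 χ) χ := by
    have := inv_inv (by norm_num) hL
    simpa using this
  induction k using Int.induction_on with
  | zero =>
    rw [mul_zero, act_one]; exact EqC.refl _
  | succ i ih =>
    have e : act 1 0 (3 * ((i : ℤ) + 1)) 1 χ = act 1 0 3 1 (act 1 0 (3 * (i : ℤ)) 1 χ) := by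
      rw [act_act]
      congr 1 <;> ring
    rw [e]
    exact (ih.act (by norm_num)).trans hL
  | pred i ih =>
    have e : act 1 0 (3 * (-(i : ℤ) - 1)) 1 χ = act 1 0 (-3) 1 (act 1 0 (3 * -(i : ℤ)) 1 χ) := by
      rw [act_act]
      congr 1 <;> ring
    rw [e]
    exact (ih.act (by norm_num)).trans hL'

private theorem near (x y : ℤ) (hy : y ≠ 0) : ∃ k : ℤ, 2 * (x + k * y).natAbs ≤ y.natAbs := by
  have h1 := Int.emod_add_mul_ediv x y
  have h2 := Int.emod_nonneg x hy
  have h3 := Int.emod_lt_abs x hy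
  rw [Int.abs_eq_natAbs] at h3
  set q := x / y with hq
  set r := x % y with hr
  by_cases h4 : 2 * r ≤ (y.natAbs : ℤ)
  · refine ⟨-q, ?_⟩
    have e : x + -q * y = r := by linarith
    rw [e]
    omega
  · rcases lt_or_gt_of_ne hy with hneg | hpos
    · refine ⟨-q + 1, ?_⟩
      have e : x + (-q + 1) * y = r + y := by linarith
      rw [e]
      omega
    · refine ⟨-q - 1, ?_⟩
      have e : x + (-q - 1) * y = r - y := by linarith
      rw [e]
      omega

/-- The Euclidean algorithm for `(1 1; 0 1)` and `W = (0 -1; 3 0)`. -/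
private theorem euclid {R : Type} {G : ℤ → ℤ → R} (hG : Homog G)
    (hT : ∀ x y : ℤ, (x ≠ 0 ∨ y ≠ 0) → G (x + y) y = G x y)
    (hW : ∀ x y : ℤ, (x ≠ 0 ∨ y ≠ 0) → G (-y) (3 * x) = G x y) :
    ∀ (n : ℕ) (x y : ℤ), y.natAbs = n → (x ≠ 0 ∨ y ≠ 0) → G x y = G 1 0 := by
  have hTk : ∀ (k x y : ℤ), y ≠ 0 → G (x + k * y) y = G x y := by
    intro k
    induction k using Int.induction_on with
    | zero => intro x y _; simp
    | succ i ih =>
      intro x y hy
      have h := hT (x + i * y) y (Or.inr hy)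
      rw [ih x y hy] at h
      rw [← h]
      congr 1
      ring
    | pred i ih =>
      intro x y hy
      have h := hT (x + (-(i : ℤ) - 1) * y) y (Or.inr hy)
      rw [← h, ← ih x y hy]
      congr 1
      ring
  have hLk : ∀ (k x y : ℤ), x ≠ 0 → G x (y + k * (3 * x)) = G x y := by
    intro k x y hx
    have h3 : (3 : ℤ) * x ≠ 0 := mul_ne_zero three_ne_zero hx
    rw [← hW x (y + k * (3 * x)) (Or.inl hx), ← hW x y (Or.inl hx),
      ← hTk k (-(y + k * (3 * x))) (3 * x) h3]
    congr 1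
    ring
  have h01 : G 0 1 = G 1 0 := by
    have h := hW 0 1 (Or.inr one_ne_zero)
    rw [← h]
    have h' := hG (-1) 1 0 (by norm_num) (Or.inl one_ne_zero)
    simpa using h'
  intro n
  induction n using Nat.strong_induction_on with
  | _ n ih =>
    intro x y hn hxy
    by_cases hy : y = 0
    · subst hy
      have hx : x ≠ 0 := by
        rcases hxy with h | h
        · exact h
        · exact absurd rfl h
      have h := hG x 1 0 hx (Or.inl one_ne_zero)
      simpa using h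
    · obtain ⟨k, hk⟩ := near x y hy
      rw [← hTk k x y hy]
      set x' := x + k * y with hx'
      by_cases hx0 : x' = 0
      · rw [hx0]
        have h := hG y 0 1 hy (Or.inr one_ne_zero)
        rw [mul_zero, mul_one] at h
        rw [h, h01]
      · have h3 : (3 : ℤ) * x' ≠ 0 := mul_ne_zero three_ne_zero hx0
        obtain ⟨l, hl⟩ := near y (3 * x') h3
        rw [← hLk l x' y hx0]
        exact ih (y + l * (3 * x')).natAbs (by omega) x' (y + l * (3 * x')) rfl (Or.inl hx0)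

theorem hUIp : SHUIp := by
  intro p hp hp2 R _ r s χ hχ hu
  have hp0 : (p : ℤ) ≠ 0 := by
    have : p ≠ 0 := by omega
    exact_mod_cast this
  have hsq : ∀ k : ℕ, ∃ j : ℤ, 1 - ((p : ℤ) ^ k) ^ 2 = 3 * j := by
    intro k
    have h1 : ¬ (3 : ℤ) ∣ (p : ℤ) ^ k := by
      intro h
      have h2 : (3 : ℤ) ∣ (p : ℤ) := Int.prime_three.dvd_of_dvd_pow h
      exact hp2 (by exact_mod_cast h2)
    generalize (p : ℤ) ^ k = a at h1
    obtain ⟨c, hc⟩ : ∃ c : ℤ, a = 3 * c + 1 ∨ a = 3 * c + 2 := ⟨a / 3, by omega⟩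
    rcases hc with hc | hc
    · exact ⟨-(3 * c ^ 2 + 2 * c), by rw [hc]; ring⟩
    · exact ⟨-(3 * c ^ 2 + 4 * c + 1), by rw [hc]; ring⟩
  have detu : (p : ℤ) * 1 - 0 * 0 ≠ 0 := by simpa using hp0
  have st1 : ∀ b : ℤ, EqC (act 1 (p * b) 0 1 χ) χ → EqC (act 1 b 0 1 χ) χ := by
    intro b hb
    have e1 : act 1 b 0 1 (act p 0 0 1 χ) = act p 0 0 1 (act 1 (p * b) 0 1 χ) := by
      rw [act_act, act_act]
      congr 1 <;> ring
    have h1 : EqC (act 1 b 0 1 χ) (act 1 b 0 1 (act p 0 0 1 χ)) := hu.symm.act (by norm_num)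
    rw [e1] at h1
    exact h1.trans ((hb.act detu).trans hu)
  have st2 : ∀ c : ℤ, EqC (act 1 0 (p * c) 1 χ) χ → EqC (act 1 0 c 1 χ) χ := by
    intro c hc
    have e1 : act 1 0 (p * c) 1 (act p 0 0 1 χ) = act p 0 0 1 (act 1 0 c 1 χ) := by
      rw [act_act, act_act]
      congr 1 <;> ring
    have h1 : EqC (act p 0 0 1 (act 1 0 c 1 χ)) (act p 0 0 1 χ) := by
      rw [← e1]
      exact (hu.act (by norm_num)).trans (hc.trans hu.symm)
    obtain ⟨k, hk⟩ := h1
    have hF : Homog (act 1 0 c 1 χ) := hχ.1.act (by norm_num)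
    refine ⟨k, fun x y hxy => ?_⟩
    have hxy' : x ≠ 0 ∨ (p : ℤ) * y ≠ 0 := by
      rcases hxy with hx | hy
      · exact Or.inl hx
      · exact Or.inr (mul_ne_zero hp0 hy)
    have h2 := hk x (p * y) hxy'
    have e2 : act p 0 0 1 (act 1 0 c 1 χ) x (p * y) = act 1 0 c 1 χ x y := by
      rw [← hF p x y hp0 hxy]
      show act 1 0 c 1 χ (p * x + 0 * (p * y)) (0 * x + 1 * (p * y)) = _
      congr 1 <;> ring
    have e3 : act p 0 0 1 χ x (p * y) = χ x y := by
      rw [← hχ.1 p x y hp0 hxy]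
      show χ (p * x + 0 * (p * y)) (0 * x + 1 * (p * y)) = _
      congr 1 <;> ring
    rw [e2, e3] at h2
    exact h2
  have hT : EqC (act 1 1 0 1 χ) χ := by
    have key : ∀ k : ℕ, EqC (act 1 ((p : ℤ) ^ k) 0 1 χ) χ → EqC (act 1 1 0 1 χ) χ := by
      intro k
      induction k with
      | zero => intro h; simpa using h
      | succ k ih =>
        intro h
        rw [pow_succ'] at h
        exact ih (st1 _ h)
    exact key r (hχ.2 1 ((p : ℤ) ^ r) 0 1 (Or.inl ⟨by ring, dvd_zero _⟩) (dvd_refl _)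
      (dvd_zero _))
  have hL : EqC (act 1 0 3 1 χ) χ := by
    have key : ∀ k : ℕ, EqC (act 1 0 ((p : ℤ) ^ k * 3) 1 χ) χ → EqC (act 1 0 3 1 χ) χ := by
      intro k
      induction k with
      | zero => intro h; simpa using h
      | succ k ih =>
        intro h
        rw [pow_succ', mul_assoc] at h
        exact ih (st2 _ h)
    exact key s (hχ.2 1 0 ((p : ℤ) ^ s * 3) 1 (Or.inl ⟨by ring, Dvd.intro_left _ rfl⟩)
      (dvd_zero _) (Dvd.intro _ rfl))
  -- the matrix `W`
  have hW : EqC (act 0 (-1) 3 0 χ) χ := by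
    obtain ⟨k, hk⟩ := hsq r
    obtain ⟨j, hj⟩ := hsq s
    set P : ℤ := (p : ℤ) ^ r with hP
    set Q : ℤ := (p : ℤ) ^ s with hQ
    have h0 : EqC (act (1 - P ^ 2 * Q ^ 2) (-P ^ 2) (3 * Q ^ 2) 3 χ) χ := by
      apply hχ.2
      · refine Or.inr ⟨by ring, ?_, Dvd.intro _ rfl, dvd_refl _⟩
        have e : 1 - P ^ 2 * Q ^ 2 = 3 * (k + P ^ 2 * j) := by
          linear_combination hk + P ^ 2 * hj
        rw [e]
        exact Dvd.intro _ rfl
      · exact ⟨-P, by ring⟩
      · exact ⟨3 * Q, by ring⟩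
    have e : act 0 (-1) 3 0 χ = act 1 (-1) 0 1 (act 1 0 (3 * j) 1
        (act (1 - P ^ 2 * Q ^ 2) (-P ^ 2) (3 * Q ^ 2) 3
          (act 1 (-k) 0 1 χ))) := by
      rw [act_act, act_act, act_act]
      congr 1
      · rw [← hj]; linear_combination (-1 : ℤ) * hk
      · rw [← hj]; ring
      · rw [← hj]; ring
      · rw [← hj]; ring
    rw [e]
    have d0 : (1 - P ^ 2 * Q ^ 2) * 3 - -P ^ 2 * (3 * Q ^ 2) ≠ 0 := by
      have : (1 - P ^ 2 * Q ^ 2) * 3 - -P ^ 2 * (3 * Q ^ 2) = 3 := by ring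
      rw [this]
      norm_num
    have h1 := ((up hT (-k)).act d0).trans h0
    have h2 := (h1.act (a := 1) (b := 0) (c := 3 * j) (d := 1) (by norm_num)).trans (lo hL j)
    exact (h2.act (a := 1) (b := -1) (c := 0) (d := 1) (by norm_num)).trans (up hT (-1))
  -- constants
  obtain ⟨ct, hct⟩ := hT
  have hct0 : ct = 0 := by
    have h := hct 1 0 (Or.inl one_ne_zero)
    simpa [act] using h
  obtain ⟨w, hw⟩ := hW
  have h2w : w + w = 0 := by
    have h1 := hw 1 0 (Or.inl one_ne_zero)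
    have h2 := hw 0 3 (Or.inr three_ne_zero)
    have h3 := hχ.1 (-3) 1 0 (by norm_num) (Or.inl one_ne_zero)
    simp only [act] at h1 h2
    norm_num at h1 h2 h3
    rw [h3, h1, add_assoc] at h2
    exact (left_eq_add.1 h2)
  refine ⟨(2 : ℤ) • χ 1 0, fun x y hxy => ?_⟩
  have key := euclid (G := (2 : ℤ) • χ) (hχ.1.smul (2 : ℤ)) ?_ ?_ y.natAbs x y rfl hxy
  · rw [key]; simp
  · intro x y hxy
    have h := hct x y hxy
    rw [hct0, add_zero] at h
    simp only [act, one_mul, zero_mul, zero_add] at h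
    show (2 : ℤ) • χ (x + y) y = (2 : ℤ) • χ x y
    rw [h]
  · intro x y hxy
    have h := hw x y hxy
    simp only [act, zero_mul, zero_add, add_zero, neg_mul, one_mul] at h
    show (2 : ℤ) • χ (-y) (3 * x) = (2 : ℤ) • χ x y
    rw [h, smul_add, two_smul ℤ w, h2w, add_zero]

end Pool.Agent.Helper57.TKW
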